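import Pool.Agent.H206R2.OneVar.D
import Pool.Agent.H206R2.OneVar.F
import Pool.Agent.H206R2.Tower.Base2

/-!
Periods in one variable among the Möbius images of a transcendental number, with real algebraic
coefficients.
-/

set_option autoImplicit false

namespace Pool.Agent.Results.MP_725b61_nt.MoebiusImages

open Pool.Agent.H301R2.SSE Pool.Agent.H301R2.Nine Polynomial MeasureTheory
open Pool.Agent.H206R2.OneVar (poles2 poles3 strip)

/-- the field of real algebraic numbers -/
noncomputable abbrev A : IntermediateField ℚ ℝ := algebraicClosure ℚ ℝ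

/-- the value of the polynomial `P` at `y` -/
noncomputable def val (P : A[X]) (y : ℝ) : ℝ := aeval y P

/-- the subset of `ℝ` given by the inequalities `pᵢ ≥ 0` -/
def region {m : ℕ} (p : Fin m → A[X]) : Set ℝ := {y : ℝ | ∀ i, 0 ≤ val (p i) y}

/-- `x` is a one-variable period: a finite sum of absolutely convergent integrals of rational
functions with real algebraic coefficients over subsets of `ℝ` given by finitely many polynomial
inequalities with real algebraic coefficients. -/
def OneVar (x : ℝ) : Prop :=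
  ∃ (k : ℕ) (m : Fin k → ℕ) (p : ∀ j : Fin k, Fin (m j) → A[X]) (P Q : Fin k → A[X]),
    (∀ j, IntegrableOn (fun y => val (P j) y / val (Q j) y) (region (p j))) ∧
    x = ∑ j, ∫ y in region (p j), val (P j) y / val (Q j) y

theorem OneVar.mem {x : ℝ} (h : OneVar x) : (x : ℂ) ∈ Lt :=
  Pool.Agent.H206R2.OneVar.OneVariablePeriod.mem h

/-- the finite poles `α` of the Möbius maps `z ↦ a + b / (z - α)`, `b ≠ 0`, with real algebraic
coefficients, which send `θ` to a one-variable period -/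
def finitePoles (θ : ℝ) : Set ℝ :=
  {α : ℝ | IsAlgebraic ℚ α ∧ ∃ a b : ℝ, IsAlgebraic ℚ a ∧ IsAlgebraic ℚ b ∧ b ≠ 0 ∧
    OneVar (a + b / (θ - α))}

/-- some `a + b θ` with real algebraic coefficients, `b ≠ 0`, is a one-variable period -/
def PoleAtInfinity (θ : ℝ) : Prop :=
  ∃ a b : ℝ, IsAlgebraic ℚ a ∧ IsAlgebraic ℚ b ∧ b ≠ 0 ∧ OneVar (a + b * θ)

theorem pole_mem {θ α : ℝ} (h : α ∈ finitePoles θ) :
    IsAlgebraic ℚ (α : ℂ) ∧ 1 / ((θ : ℂ) - (α : ℂ)) ∈ Lt := by
  obtain ⟨hα, a, b, ha, hb, hb0, h⟩ := h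
  refine ⟨toC hα, ?_⟩
  have h1 := h.mem
  refine strip (a := (a : ℂ)) (b := (b : ℂ)) (toC ha) (toC hb) (by exact_mod_cast hb0) ?_
  have e : ((a + b / (θ - α) : ℝ) : ℂ) = (a : ℂ) + (b : ℂ) * (1 / ((θ : ℂ) - (α : ℂ))) := by
    push_cast
    ring
  rwa [e] at h1

theorem inf_mem {θ : ℝ} (h : PoleAtInfinity θ) : (θ : ℂ) ∈ Lt := by
  obtain ⟨a, b, ha, hb, hb0, h⟩ := h
  have h1 := h.mem
  refine strip (a := (a : ℂ)) (b := (b : ℂ)) (toC ha) (toC hb) (by exact_mod_cast hb0) ?_
  have e : ((a + b * θ : ℝ) : ℂ) = (a : ℂ) + (b : ℂ) * (θ : ℂ) := by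
    push_cast
    ring
  rwa [e] at h1

theorem le_two {θ : ℝ} (hθ : Transcendental ℚ θ) : (finitePoles θ).encard ≤ 2 := by
  have hθC : ¬ IsAlgebraic ℚ (θ : ℂ) := fun h => hθ (ofC h)
  by_contra hcon
  rw [not_le] at hcon
  have h3 : (3 : ℕ∞) ≤ (finitePoles θ).encard := by
    have := Order.add_one_le_of_lt hcon
    norm_num at this
    exact this
  obtain ⟨t, hts, ht⟩ := Set.exists_subset_encard_eq h3
  obtain ⟨a, b, c, hab, hac, hbc, rfl⟩ := Set.encard_eq_three.mp ht
  have ha := pole_mem (hts (show a ∈ ({a, b, c} : Set ℝ) by simp))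
  have hb := pole_mem (hts (show b ∈ ({a, b, c} : Set ℝ) by simp))
  have hc := pole_mem (hts (show c ∈ ({a, b, c} : Set ℝ) by simp))
  exact poles3 hθC ha.1 hb.1 hc.1 (by exact_mod_cast hab) (by exact_mod_cast hac)
    (by exact_mod_cast hbc) ha.2 hb.2 hc.2

theorem le_one {θ : ℝ} (hθ : Transcendental ℚ θ) (hm : (θ : ℂ) ∈ Lt) :
    (finitePoles θ).encard ≤ 1 := by
  have hθC : ¬ IsAlgebraic ℚ (θ : ℂ) := fun h => hθ (ofC h)
  rw [Set.encard_le_one_iff]
  intro a b ha hb
  by_contra hab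
  have ha := pole_mem ha
  have hb := pole_mem hb
  exact poles2 hθC ha.1 hb.1 (by exact_mod_cast hab) hm ha.2 hb.2

/-- For every transcendental real `θ`, the Möbius maps with real algebraic coefficients which send
`θ` to a one-variable period have at most two different poles in `ℝ ∪ {∞}`; for `θ = π` at most one
finite pole. So `1 / (π - α)` is a one-variable period for at most one real algebraic `α`, and at
most two of the numbers `e`, `1 / (e - α)` (`α` real algebraic) are one-variable periods. If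
`x ^ π` is algebraic for some real algebraic `x > 0`, `x ≠ 1`, then for `θ = π` there is no finite
pole, so in particular `1 / π` is not a one-variable period. -/
theorem result :
    (∀ θ : ℝ, Transcendental ℚ θ → (finitePoles θ).encard ≤ 2 ∧
      (PoleAtInfinity θ → (finitePoles θ).encard ≤ 1)) ∧
    (finitePoles Real.pi).encard ≤ 1 ∧
    ((∃ x : ℝ, IsAlgebraic ℚ x ∧ 0 < x ∧ x ≠ 1 ∧ IsAlgebraic ℚ (x ^ Real.pi)) →
      finitePoles Real.pi = ∅) := by
  refine ⟨fun _ hθ => ⟨le_two hθ, fun h => le_one hθ (inf_mem h)⟩,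
    le_one Pool.Agent.H340R2.LW.transcendental_pi (LB_Lt pi_mem), ?_⟩
  rintro ⟨x, hx, hx0, hx1, hxp⟩
  rw [Real.rpow_def_of_pos hx0, mul_comm] at hxp
  have hL0 : Real.log x ≠ 0 := by
    intro h
    rcases Real.log_eq_zero.mp h with h | h | h
    · exact hx0.ne' h
    · exact hx1 h
    · linarith
  have hL : IsAlgebraic ℚ (Real.exp (Real.log x)) := by rw [Real.exp_log hx0]; exact hx
  rw [Set.eq_empty_iff_forall_notMem]
  intro a ha
  obtain ⟨h1, h2⟩ := pole_mem ha
  exact Pool.Agent.H206R2.Tower.b_pole hL0 hL hxp h1 h2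

end Pool.Agent.Results.MP_725b61_nt.MoebiusImages
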