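import Pool.Agent.H206R2.OneVar.E

/-!
Periods in one variable: finite sums of absolutely convergent integrals `∫_D R(y) dy` with
`D ⊆ ℝ` given by polynomial inequalities and `R` a rational function, all coefficients being real
algebraic numbers (the case `n = 1` of the definition of Kontsevich and Zagier, with algebraic
instead of rational coefficients). For every transcendental real `θ` the one-variable periods `y`
such that `θ y` is one too form a space of dimension at most two over the real algebraic numbers.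
-/

set_option autoImplicit false

namespace Pool.Agent.Results.MP_725b61_nt.MultiplesOfOneVariablePeriods

open Pool.Agent.H301R2.SSE Pool.Agent.H301R2.Nine Polynomial MeasureTheory
open Pool.Agent.H206R2.OneVar (RA)

/-- the field of real algebraic numbers -/
noncomputable abbrev A : IntermediateField ℚ ℝ := algebraicClosure ℚ ℝ

/-- the value of the polynomial `P` at `y` -/
noncomputable def val (P : A[X]) (y : ℝ) : ℝ := aeval y P

/-- the subset of `ℝ` given by the inequalities `pᵢ ≥ 0` -/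
def region {m : ℕ} (p : Fin m → A[X]) : Set ℝ := {y : ℝ | ∀ i, 0 ≤ val (p i) y}

/-- `x` is a one-variable period: a finite sum of absolutely convergent integrals of rational
functions with real algebraic coefficients over subsets of `ℝ` given by finitely many polynomial
inequalities with real algebraic coefficients. -/
def OneVar (x : ℝ) : Prop :=
  ∃ (k : ℕ) (m : Fin k → ℕ) (p : ∀ j : Fin k, Fin (m j) → A[X]) (P Q : Fin k → A[X]),
    (∀ j, IntegrableOn (fun y => val (P j) y / val (Q j) y) (region (p j))) ∧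
    x = ∑ j, ∫ y in region (p j), val (P j) y / val (Q j) y

/-- `y₁, y₂, y₃` are linearly dependent over the real algebraic numbers -/
def Dependent (y1 y2 y3 : ℝ) : Prop :=
  ∃ a b c : ℝ, IsAlgebraic ℚ a ∧ IsAlgebraic ℚ b ∧ IsAlgebraic ℚ c ∧ ¬ (a = 0 ∧ b = 0 ∧ c = 0) ∧
    a * y1 + b * y2 + c * y3 = 0

/-- `y = a + b s` with real algebraic `a`, `b` -/
def InSpan (s y : ℝ) : Prop :=
  ∃ a b : ℝ, IsAlgebraic ℚ a ∧ IsAlgebraic ℚ b ∧ y = a + b * s

/-- the exponents `k` such that `θ ^ k` is a one-variable period -/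
def exps (θ : ℝ) : Set ℤ := {k : ℤ | OneVar (θ ^ k)}

theorem OneVar.mem {x : ℝ} (h : OneVar x) : (x : ℂ) ∈ Lt :=
  Pool.Agent.H206R2.OneVar.OneVariablePeriod.mem h

theorem alg_re {c : ℂ} (hc : IsAlgebraic ℚ c) : IsAlgebraic ℚ c.re := by
  have h1 : IsAlgebraic ℚ ((starRingEnd ℂ) c) := by
    obtain ⟨p, hp, h⟩ := hc
    refine ⟨p, hp, ?_⟩
    have h2 := congrArg (starRingEnd ℂ) h
    rw [map_zero] at h2
    rw [← h2]
    rw [aeval_def, aeval_def, Polynomial.hom_eval₂]
    congr 1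
    ext q
    simp
  apply ofC
  have h2 : ((c.re : ℝ) : ℂ) = (2 : ℂ)⁻¹ * (c + (starRingEnd ℂ) c) := by
    rw [Complex.add_conj]
    push_cast
    ring
  rw [h2]
  exact (isAlgebraic_natCast 2 : IsAlgebraic ℚ ((2 : ℕ) : ℂ)).inv.mul (hc.add h1)

theorem alg_im {c : ℂ} (hc : IsAlgebraic ℚ c) : IsAlgebraic ℚ c.im := by
  have h1 := alg_re ((algI.neg).mul hc)
  have h2 : (-Complex.I * c).re = c.im := by simp
  rwa [h2] at h1

/-- The main point: if `θ` is transcendental and `yⱼ`, `θ yⱼ` are linear forms in `1` and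
logarithms (`j = 1, 2, 3`), then `y₁, y₂, y₃` are dependent over the real algebraic numbers. -/
theorem main {θ : ℝ} (hθ : Transcendental ℚ θ) {y1 y2 y3 : ℝ}
    (h1 : (y1 : ℂ) ∈ Lt) (h2 : (y2 : ℂ) ∈ Lt) (h3 : (y3 : ℂ) ∈ Lt)
    (h1' : ((θ * y1 : ℝ) : ℂ) ∈ Lt) (h2' : ((θ * y2 : ℝ) : ℂ) ∈ Lt)
    (h3' : ((θ * y3 : ℝ) : ℂ) ∈ Lt) :
    ∃ a b c : ℝ, IsAlgebraic ℚ a ∧ IsAlgebraic ℚ b ∧ IsAlgebraic ℚ c ∧ ¬ (a = 0 ∧ b = 0 ∧ c = 0) ∧
      a * y1 + b * y2 + c * y3 = 0 := by
  by_contra hcon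
  have hθC : ¬ IsAlgebraic ℚ (θ : ℂ) := fun h => hθ (ofC h)
  have key : ∀ a b c : ℝ, IsAlgebraic ℚ a → IsAlgebraic ℚ b → IsAlgebraic ℚ c →
      a * y1 + b * y2 + c * y3 = 0 → a = 0 ∧ b = 0 ∧ c = 0 := by
    intro a b c ha hb hc h
    by_contra hne
    exact hcon ⟨a, b, c, ha, hb, hc, hne, h⟩
  refine six' 1 (θ : ℂ) (y1 : ℂ) (y2 : ℂ) (y3 : ℂ)
    (fun a b ha hb h => lin_of_tr hθC ha hb (by linear_combination h)) ?_
    (by rw [one_mul]; exact h1) (by rw [one_mul]; exact h2) (by rw [one_mul]; exact h3)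
    (by rw [← Complex.ofReal_mul]; exact h1') (by rw [← Complex.ofReal_mul]; exact h2')
    (by rw [← Complex.ofReal_mul]; exact h3')
  intro a b c ha hb hc h
  have hre := congrArg Complex.re h
  have him := congrArg Complex.im h
  simp only [Complex.add_re, Complex.add_im, Complex.mul_re, Complex.mul_im, Complex.ofReal_re,
    Complex.ofReal_im, mul_zero, sub_zero, zero_add, Complex.zero_re, Complex.zero_im] at hre him
  obtain ⟨r1, r2, r3⟩ := key _ _ _ (alg_re ha) (alg_re hb) (alg_re hc) hre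
  obtain ⟨i1, i2, i3⟩ := key _ _ _ (alg_im ha) (alg_im hb) (alg_im hc) him
  exact ⟨Complex.ext r1 i1, Complex.ext r2 i2, Complex.ext r3 i3⟩

theorem three {θ : ℝ} (hθ : Transcendental ℚ θ) : ∀ d k1 k2 k3 : ℤ, d ≠ 0 → k1 ≠ k2 → k1 ≠ k3 →
    k2 ≠ k3 → k1 ∈ {k : ℤ | OneVar (θ ^ k)} → k2 ∈ {k : ℤ | OneVar (θ ^ k)} →
    k3 ∈ {k : ℤ | OneVar (θ ^ k)} → k1 + d ∈ {k : ℤ | OneVar (θ ^ k)} →
    k2 + d ∈ {k : ℤ | OneVar (θ ^ k)} → k3 + d ∈ {k : ℤ | OneVar (θ ^ k)} → False :=
  fun _ _ _ _ hd h12 h13 h23 m1 m2 m3 l1 l2 l3 =>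
    Pool.Agent.H206R2.OneVar.three hθ hd h12 h13 h23 (OneVar.mem m1) (OneVar.mem m2)
      (OneVar.mem m3) (OneVar.mem l1) (OneVar.mem l2) (OneVar.mem l3)

theorem one_mem : ((1 : ℝ) : ℂ) ∈ Lt := by
  rw [Complex.ofReal_one]; exact Lt_one

/-- `1, s` in the role of `y₁, y₂` -/
theorem two {θ s : ℝ} (hθ : Transcendental ℚ θ) (hs : Transcendental ℚ s) (h1 : (θ : ℂ) ∈ Lt)
    (h2 : (s : ℂ) ∈ Lt) (h3 : ((θ * s : ℝ) : ℂ) ∈ Lt) {y : ℝ} (hy : (y : ℂ) ∈ Lt)
    (hy' : ((θ * y : ℝ) : ℂ) ∈ Lt) :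
    ∃ a b : ℝ, IsAlgebraic ℚ a ∧ IsAlgebraic ℚ b ∧ y = a + b * s := by
  obtain ⟨a, b, c, ha, hb, hc, hne, h⟩ := main hθ one_mem h2 hy (by rwa [mul_one]) h3 hy'
  by_cases hc0 : c = 0
  · exfalso
    subst hc0
    have hab : a + b * s = 0 := by linear_combination h
    by_cases hb0 : b = 0
    · subst hb0
      exact hne ⟨by linear_combination hab, rfl, rfl⟩
    · apply hs
      have e : s = -a * b⁻¹ := by
        field_simp
        linear_combination hab
      rw [e]
      exact ha.neg.mul hb.inv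
  · refine ⟨-a * c⁻¹, -b * c⁻¹, ha.neg.mul hc.inv, hb.neg.mul hc.inv, ?_⟩
    field_simp
    linear_combination h

theorem tr_e : Transcendental ℚ (Real.exp 1) := Pool.Agent.H340R2.LW.transcendental_exp_one

theorem tr_pi : Transcendental ℚ Real.pi := Pool.Agent.H340R2.LW.transcendental_pi

theorem tr_pi_inv : Transcendental ℚ (1 / Real.pi) := by
  intro h
  apply tr_pi
  have := h.inv
  rwa [one_div, inv_inv] at this

/-- `s²` is not in the span of `1, s` if `s` is transcendental -/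
theorem sq_ne {s a b : ℝ} (hs : Transcendental ℚ s) (ha : IsAlgebraic ℚ a) (hb : IsAlgebraic ℚ b) :
    s ^ 2 ≠ a + b * s := by
  intro h
  apply hs
  have h2 : IsAlgebraic ℚ (2 : ℝ) := isAlgebraic_natCast 2
  have h4 : IsAlgebraic ℚ (4 : ℝ) := isAlgebraic_natCast 4
  have h1 : IsAlgebraic ℚ (2 * s - b) := by
    apply IsAlgebraic.of_pow (n := 2) (by norm_num)
    have e : (2 * s - b) ^ 2 = b ^ 2 + 4 * a := by linear_combination 4 * h
    rw [e]
    exact (hb.pow 2).add (h4.mul ha)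
  have e : s = (2 * s - b + b) * 2⁻¹ := by ring
  rw [e]
  exact (h1.add hb).mul h2.inv

/-- For every transcendental real `θ`: three one-variable periods `yⱼ` such that the `θ yⱼ` are
one-variable periods are linearly dependent over the real algebraic numbers; each nonzero `d` is
at most twice a difference of exponents `k` such that `θ ^ k` is a one-variable period, and there
are at most `2 √N + 1` such exponents among any `N` consecutive integers. Moreover: if `e` and
`e ^ 2` are one-variable periods, then `y`, `e y` are both one-variable periods only if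
`y ∈ A + A e` (so `e ^ 3` is not one); if `1 / π` is one, then `y`, `π y` both are only if
`y ∈ A + A / π` (so `π ^ 2` and `1 / π ^ 2` are not); and if Euler's constant, its square and its
cube are one-variable periods then Euler's constant is algebraic (`A`: real algebraic numbers). -/
theorem result :
    (∀ θ : ℝ, Transcendental ℚ θ →
      (∀ y1 y2 y3 : ℝ, OneVar y1 → OneVar y2 → OneVar y3 →
        OneVar (θ * y1) → OneVar (θ * y2) → OneVar (θ * y3) → Dependent y1 y2 y3) ∧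
      (∀ d : ℤ, d ≠ 0 → {k : ℤ | k ∈ exps θ ∧ k + d ∈ exps θ}.encard ≤ 2) ∧
      (∀ (M : ℤ) (N : ℕ), ((exps θ ∩ Set.Ioc M (M + N)).ncard : ℝ) ≤ 2 * √N + 1)) ∧
    (OneVar (Real.exp 1) → OneVar (Real.exp 1 ^ 2) → ¬ OneVar (Real.exp 1 ^ 3) ∧
      ∀ y : ℝ, OneVar y → OneVar (Real.exp 1 * y) → InSpan (Real.exp 1) y) ∧
    (OneVar (1 / Real.pi) → ¬ OneVar (Real.pi ^ 2) ∧ ¬ OneVar (1 / Real.pi ^ 2) ∧
      ∀ y : ℝ, OneVar y → OneVar (Real.pi * y) → InSpan (1 / Real.pi) y) ∧
    (OneVar Real.eulerMascheroniConstant → OneVar (Real.eulerMascheroniConstant ^ 2) →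
      OneVar (Real.eulerMascheroniConstant ^ 3) → IsAlgebraic ℚ Real.eulerMascheroniConstant) := by
  refine ⟨fun θ hθ => ⟨?_, ?_, ?_⟩, ?_, ?_, ?_⟩
  · intro y1 y2 y3 h1 h2 h3 h1' h2' h3'
    exact main hθ h1.mem h2.mem h3.mem h1'.mem h2'.mem h3'.mem
  · intro d hd
    exact Pool.Agent.H206R2.OneVar.encard_le (three hθ) hd
  · intro M N
    exact (Pool.Agent.H206R2.OneVar.count (three hθ) M N).2
  · intro h1 h2
    have key : ∀ y : ℝ, OneVar y → OneVar (Real.exp 1 * y) →
        ∃ a b : ℝ, IsAlgebraic ℚ a ∧ IsAlgebraic ℚ b ∧ y = a + b * Real.exp 1 :=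
      fun y hy hy' => two tr_e tr_e h1.mem h1.mem (by rw [← sq]; exact h2.mem) hy.mem hy'.mem
    refine ⟨?_, key⟩
    intro h3
    obtain ⟨a, b, ha, hb, h⟩ := key (Real.exp 1 ^ 2) h2 (by
      have e : Real.exp 1 * Real.exp 1 ^ 2 = Real.exp 1 ^ 3 := by ring
      rw [e]; exact h3)
    exact sq_ne tr_e ha hb h
  · intro h1
    have hpi : ((Real.pi : ℝ) : ℂ) ∈ Lt := LB_Lt pi_mem
    have hone : ((Real.pi * (1 / Real.pi) : ℝ) : ℂ) ∈ Lt := by
      rw [mul_one_div_cancel Real.pi_ne_zero]; exact one_mem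
    have keyL : ∀ y : ℝ, (y : ℂ) ∈ Lt → ((Real.pi * y : ℝ) : ℂ) ∈ Lt →
        ∃ a b : ℝ, IsAlgebraic ℚ a ∧ IsAlgebraic ℚ b ∧ y = a + b * (1 / Real.pi) :=
      fun y hy hy' => two tr_pi tr_pi_inv hpi h1.mem hone hy hy'
    refine ⟨?_, ?_, fun y hy hy' => keyL y hy.mem hy'.mem⟩
    · intro h2
      obtain ⟨a, b, ha, hb, h⟩ := keyL Real.pi hpi (by rw [← sq]; exact h2.mem)
      refine sq_ne tr_pi hb ha (a := b) (b := a) ?_
      have hp := Real.pi_ne_zero
      field_simp at h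
      linear_combination h
    · intro h2
      obtain ⟨a, b, ha, hb, h⟩ := keyL (1 / Real.pi ^ 2) h2.mem (by
        have e : Real.pi * (1 / Real.pi ^ 2) = 1 / Real.pi := by
          have hp := Real.pi_ne_zero
          field_simp
        rw [e]; exact h1.mem)
      refine sq_ne tr_pi_inv ha hb ?_
      rw [one_div_pow]
      exact h
  · intro h1 h2 h3
    by_contra hcon
    have hγ : Transcendental ℚ Real.eulerMascheroniConstant := hcon
    obtain ⟨a, b, ha, hb, h⟩ := two hγ hγ h1.mem h1.mem (by rw [← sq]; exact h2.mem)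
      (y := Real.eulerMascheroniConstant ^ 2) h2.mem (by
        have e : Real.eulerMascheroniConstant * Real.eulerMascheroniConstant ^ 2
            = Real.eulerMascheroniConstant ^ 3 := by ring
        rw [e]; exact h3.mem)
    exact sq_ne hγ ha hb h

end Pool.Agent.Results.MP_725b61_nt.MultiplesOfOneVariablePeriods
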